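import Mathlib

/-!
# Long and short edges on complete bipartite graphs
-/

namespace Pool.Agent.NPC.ER.LSE

/-- An instance `(A, B, S)`: the complete bipartite graph with parts (the sets of members of) `A`
and `B`, and the list `S` of the short edges; an edge joining `u ∈ A` and `v ∈ B` is the pair
`(u, v)`. The other edges are long. -/
abbrev Inst : Type := List ℕ × List ℕ × List (ℕ × ℕ)

/-- `(A, B, S)` is an instance: the parts are nonempty and disjoint, and the members of `S` are
edges. -/
def IsInst (G : Inst) : Prop :=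
  G.1 ≠ [] ∧ G.2.1 ≠ [] ∧ (∀ u ∈ G.1, ∀ v ∈ G.2.1, u ≠ v) ∧
    ∀ e ∈ G.2.2, e.1 ∈ G.1 ∧ e.2 ∈ G.2.1

/-- The Euclidean length of the segment `ab`. -/
noncomputable def len (a b : ℝ × ℝ) : ℝ := Real.sqrt ((a.1 - b.1) ^ 2 + (a.2 - b.2) ^ 2)

/-- `p` is a non-degenerate straight-line drawing of the complete bipartite graph in which the
edges of length at most `1` are exactly the short ones. -/
structure Realizes (G : Inst) (p : ℕ → ℝ × ℝ) : Prop where
  /-- distinct vertices are placed at distinct points -/
  inj : ∀ u ∈ G.1 ++ G.2.1, ∀ v ∈ G.1 ++ G.2.1, p u = p v → u = v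
  /-- no vertex lies in the relative interior of a segment representing an edge -/
  avoid : ∀ u ∈ G.1, ∀ v ∈ G.2.1, ∀ w ∈ G.1 ++ G.2.1, p w ∉ openSegment ℝ (p u) (p v)
  /-- the edges of length at most `1` are the short ones -/
  short : ∀ u ∈ G.1, ∀ v ∈ G.2.1, ((u, v) ∈ G.2.2 ↔ len (p u) (p v) ≤ 1)

/-- The instance is realizable. -/
def Realizable (G : Inst) : Prop := ∃ p, Realizes G p

end Pool.Agent.NPC.ER.LSE
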