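import Pool.Agent.H606R2.LSE.Member
import Pool.Agent.H625R2.BallFin

/-!
# Hardness: two columns for every column of a sign matrix
-/

namespace Pool.Agent.NPC.ER.LSE

open Pool.Agent.NPC Pool.Agent.NPC.ER.Pat
open Filter
open scoped Topology

/-! ### The reduction -/

/-- The rows (and an additional one). -/
def ptA (M : List (List Bool)) : List ℕ := (List.range (M.length + 1)).map fun i => 3 * i

/-- The columns, two for every column of `M` (and an additional one). -/
def ptB (M : List (List Bool)) : List ℕ :=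
  (3 * wid M + 1) :: (List.range (wid M)).flatMap fun j => [3 * j + 1, 3 * j + 2]

/-- The short edges. -/
def ptS (M : List (List Bool)) : List (ℕ × ℕ) :=
  (List.range M.length).flatMap fun i => (List.range (wid M)).map fun j =>
    (3 * i, if ent M i j = true then 3 * j + 1 else 3 * j + 2)

/-- The instance of a sign matrix. -/
def red (M : List (List Bool)) : Inst := (ptA M, ptB M, ptS M)

theorem mem_ptA {M : List (List Bool)} {u : ℕ} : u ∈ ptA M ↔ ∃ i ≤ M.length, u = 3 * i := by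
  simp only [ptA, List.mem_map, List.mem_range, Nat.lt_succ_iff]
  constructor
  · rintro ⟨i, h1, h2⟩; exact ⟨i, h1, h2.symm⟩
  · rintro ⟨i, h1, h2⟩; exact ⟨i, h1, h2.symm⟩

theorem mem_ptB {M : List (List Bool)} {v : ℕ} : v ∈ ptB M ↔
    v = 3 * wid M + 1 ∨ ∃ j < wid M, v = 3 * j + 1 ∨ v = 3 * j + 2 := by
  simp only [ptB, List.mem_cons, List.mem_flatMap, List.mem_range, List.not_mem_nil, or_false]

theorem mem_ptS {M : List (List Bool)} {u v : ℕ} : (u, v) ∈ ptS M ↔
    ∃ i < M.length, ∃ j < wid M, u = 3 * i ∧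
      v = if ent M i j = true then 3 * j + 1 else 3 * j + 2 := by
  simp only [ptS, List.mem_flatMap, List.mem_range, List.mem_map, Prod.mk.injEq]
  constructor
  · rintro ⟨i, hi, j, hj, h1, h2⟩; exact ⟨i, hi, j, hj, h1.symm, h2.symm⟩
  · rintro ⟨i, hi, j, hj, h1, h2⟩; exact ⟨i, hi, j, hj, h1.symm, h2.symm⟩

theorem isInst_red (M : List (List Bool)) : IsInst (red M) := by
  refine ⟨?_, ?_, ?_, ?_⟩
  · intro h
    have : (3 * 0) ∈ ptA M := mem_ptA.2 ⟨0, Nat.zero_le _, rfl⟩
    change ptA M = [] at h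
    rw [h] at this
    simp at this
  · simp [red, ptB]
  · intro u hu v hv huv
    obtain ⟨i, _, rfl⟩ := mem_ptA.1 hu
    rcases mem_ptB.1 hv with h | ⟨j, _, h | h⟩ <;> omega
  · rintro ⟨u, v⟩ he
    obtain ⟨i, hi, j, hj, h1, h2⟩ := mem_ptS.1 he
    refine ⟨mem_ptA.2 ⟨i, hi.le, h1⟩, mem_ptB.2 (Or.inr ⟨j, hj, ?_⟩)⟩
    change v = _ ∨ v = _
    rw [h2]
    split_ifs <;> simp

/-! ### Soundness -/

/-- The square of the distance. -/
def sq (a b : ℝ × ℝ) : ℝ := (a.1 - b.1) ^ 2 + (a.2 - b.2) ^ 2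

theorem len_le_iff (a b : ℝ × ℝ) : len a b ≤ 1 ↔ sq a b ≤ 1 := by
  unfold len sq
  rw [Real.sqrt_le_iff]
  constructor
  · rintro ⟨-, h⟩; nlinarith
  · intro h; exact ⟨zero_le_one, by nlinarith⟩

theorem SR_of_red {m : ℕ} {M : List (List Bool)} (hM : Rect m M) (h : Realizable (red M)) :
    SR 3 M := by
  obtain ⟨p, hp⟩ := h
  refine ⟨fun i => ![(p (3 * i)).1, (p (3 * i)).2, 1],
    fun j => ![2 * ((p (3 * j + 1)).1 - (p (3 * j + 2)).1),
      2 * ((p (3 * j + 1)).2 - (p (3 * j + 2)).2),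
      ((p (3 * j + 2)).1 ^ 2 + (p (3 * j + 2)).2 ^ 2) -
        ((p (3 * j + 1)).1 ^ 2 + (p (3 * j + 1)).2 ^ 2)], ?_⟩
  intro i hi j hj
  have hj' := hj
  rw [wid_eq hM hi] at hj'
  have hA : 3 * i ∈ (red M).1 := mem_ptA.2 ⟨i, hi.le, rfl⟩
  have hB1 : 3 * j + 1 ∈ (red M).2.1 := mem_ptB.2 (Or.inr ⟨j, hj', Or.inl rfl⟩)
  have hB2 : 3 * j + 2 ∈ (red M).2.1 := mem_ptB.2 (Or.inr ⟨j, hj', Or.inr rfl⟩)
  have h1 := hp.short _ hA _ hB1
  have h2 := hp.short _ hA _ hB2
  rw [len_le_iff] at h1 h2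
  have s1 : (3 * i, 3 * j + 1) ∈ (red M).2.2 ↔ ent M i j = true := by
    change (3 * i, 3 * j + 1) ∈ ptS M ↔ _
    rw [mem_ptS]
    constructor
    · rintro ⟨i', _, j', _, e1, e2⟩
      split_ifs at e2 with h3
      · have : i = i' := by omega
        have : j = j' := by omega
        subst_vars
        exact h3
      · omega
    · intro h3
      exact ⟨i, hi, j, hj', rfl, by rw [if_pos h3]⟩
  have s2 : (3 * i, 3 * j + 2) ∈ (red M).2.2 ↔ ¬ ent M i j = true := by
    change (3 * i, 3 * j + 2) ∈ ptS M ↔ _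
    rw [mem_ptS]
    constructor
    · rintro ⟨i', _, j', _, e1, e2⟩
      split_ifs at e2 with h3
      · omega
      · have : i = i' := by omega
        have : j = j' := by omega
        subst_vars
        exact h3
    · intro h3
      exact ⟨i, hi, j, hj', rfl, by rw [if_neg h3]⟩
  rw [s1] at h1
  rw [s2] at h2
  have key : (![(p (3 * i)).1, (p (3 * i)).2, 1] ⬝ᵥ
      ![2 * ((p (3 * j + 1)).1 - (p (3 * j + 2)).1),
      2 * ((p (3 * j + 1)).2 - (p (3 * j + 2)).2),
      ((p (3 * j + 2)).1 ^ 2 + (p (3 * j + 2)).2 ^ 2) -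
        ((p (3 * j + 1)).1 ^ 2 + (p (3 * j + 1)).2 ^ 2)]) =
      sq (p (3 * i)) (p (3 * j + 2)) - sq (p (3 * i)) (p (3 * j + 1)) := by
    rw [Matrix.vec3_dotProduct']
    unfold sq
    ring
  rw [key, ← ent_eq hi hj]
  cases hb : ent M i j
  · rw [hb] at h1 h2
    have a1 : ¬ sq (p (3 * i)) (p (3 * j + 1)) ≤ 1 := fun h => by simpa using h1.2 h
    have a2 := h2.1 (by simp)
    rw [sgn_false]
    linarith
  · rw [hb] at h1 h2
    have a1 := h1.1 rfl
    have a2 : ¬ sq (p (3 * i)) (p (3 * j + 2)) ≤ 1 := fun h => by simpa using h2.2 h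
    rw [sgn_true]
    linarith

/-! ### General position -/

/-- The orientation of three points. -/
def D3 (p q r : ℝ × ℝ) : ℝ := (q.1 - p.1) * (r.2 - p.2) - (q.2 - p.2) * (r.1 - p.1)

/-- The perturbation. -/
def pert (P : ℕ → ℝ × ℝ) (t : ℝ) (v : ℕ) : ℝ × ℝ :=
  ((1 - t) * (P v).1 + t * v, (1 - t) * (P v).2 + t * (v : ℝ) ^ 2)

theorem eventually_ne_of_poly (f : Polynomial ℝ) (hf : f ≠ 0) :
    ∀ᶠ t in 𝓝[>] (0 : ℝ), f.eval t ≠ 0 := by
  have hfin : (f.roots.toFinset : Set ℝ).Finite := Finset.finite_toSet _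
  have h1 : ((f.roots.toFinset : Set ℝ) \ {0})ᶜ ∈ 𝓝 (0 : ℝ) :=
    (hfin.subset Set.diff_subset).isClosed.isOpen_compl.mem_nhds (by simp)
  filter_upwards [mem_nhdsWithin_of_mem_nhds h1, self_mem_nhdsWithin] with t h2 h3 h4
  apply h2
  refine ⟨?_, ?_⟩
  · simp only [Finset.mem_coe, Multiset.mem_toFinset]
    exact (Polynomial.mem_roots hf).2 h4
  · have h3 : (0 : ℝ) < t := h3
    simpa using h3.ne'

theorem pert_ne (P : ℕ → ℝ × ℝ) {u v : ℕ} (h : u ≠ v) :
    ∀ᶠ t in 𝓝[>] (0 : ℝ), pert P t u ≠ pert P t v := by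
  let f : Polynomial ℝ := (1 - Polynomial.X) * Polynomial.C ((P u).1 - (P v).1) +
    Polynomial.X * Polynomial.C ((u : ℝ) - v)
  have hev : ∀ t, f.eval t = (pert P t u).1 - (pert P t v).1 := by
    intro t
    simp only [f, pert, Polynomial.eval_add, Polynomial.eval_mul, Polynomial.eval_sub,
      Polynomial.eval_one, Polynomial.eval_X, Polynomial.eval_C]
    ring
  have hf : f ≠ 0 := by
    intro h0
    have := hev 1
    rw [h0] at this
    simp only [Polynomial.eval_zero, pert, sub_self, zero_mul, one_mul, zero_add] at this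
    apply h
    have h1 : (u : ℝ) = v := by linarith
    exact_mod_cast h1
  filter_upwards [eventually_ne_of_poly f hf] with t ht h1
  rw [hev, h1, sub_self] at ht
  exact ht rfl

theorem pert_D (P : ℕ → ℝ × ℝ) {u v w : ℕ} (h1 : u ≠ v) (h2 : u ≠ w) (h3 : v ≠ w) :
    ∀ᶠ t in 𝓝[>] (0 : ℝ), D3 (pert P t u) (pert P t v) (pert P t w) ≠ 0 := by
  let l : ℝ → ℝ → Polynomial ℝ := fun a b => (1 - Polynomial.X) * Polynomial.C a +
    Polynomial.X * Polynomial.C b
  let f : Polynomial ℝ := l ((P v).1 - (P u).1) (v - u) * l ((P w).2 - (P u).2) (w ^ 2 - u ^ 2) -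
    l ((P v).2 - (P u).2) (v ^ 2 - u ^ 2) * l ((P w).1 - (P u).1) (w - u)
  have hev : ∀ t, f.eval t = D3 (pert P t u) (pert P t v) (pert P t w) := by
    intro t
    simp only [f, l, pert, D3, Polynomial.eval_add, Polynomial.eval_mul, Polynomial.eval_sub,
      Polynomial.eval_one, Polynomial.eval_X, Polynomial.eval_C]
    ring
  have hf : f ≠ 0 := by
    intro h0
    have := hev 1
    rw [h0] at this
    simp only [Polynomial.eval_zero, pert, D3, sub_self, zero_mul, one_mul, zero_add] at this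
    have e : ((v : ℝ) - u) * ((w : ℝ) - u) * ((w : ℝ) - v) = 0 := by linarith
    have n1 : (v : ℝ) - u ≠ 0 := sub_ne_zero.2 (by exact_mod_cast h1.symm)
    have n2 : (w : ℝ) - u ≠ 0 := sub_ne_zero.2 (by exact_mod_cast h2.symm)
    have n3 : (w : ℝ) - v ≠ 0 := sub_ne_zero.2 (by exact_mod_cast h3.symm)
    exact mul_ne_zero (mul_ne_zero n1 n2) n3 e
  filter_upwards [eventually_ne_of_poly f hf] with t ht
  rwa [hev] at ht

theorem D3_openSegment {p q r : ℝ × ℝ} (h : r ∈ openSegment ℝ p q) : D3 p q r = 0 := by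
  obtain ⟨a, b, _, _, hab, rfl⟩ := h
  have : a = 1 - b := by linarith
  subst this
  simp only [D3, Prod.fst_add, Prod.snd_add, Prod.smul_fst, Prod.smul_snd, smul_eq_mul]
  ring

/-- From strict inequalities to a drawing. -/
theorem realizable_of_strict {G : Inst} (hG : IsInst G) (P : ℕ → ℝ × ℝ)
    (hP : ∀ u ∈ G.1, ∀ v ∈ G.2.1, ((u, v) ∈ G.2.2 → sq (P u) (P v) < 1) ∧
      ((u, v) ∉ G.2.2 → 1 < sq (P u) (P v))) : Realizable G := by
  classical
  have e1 : ∀ᶠ t in 𝓝[>] (0 : ℝ), ∀ u ∈ (G.1 ++ G.2.1).toFinset, ∀ v ∈ (G.1 ++ G.2.1).toFinset,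
      u ≠ v → pert P t u ≠ pert P t v := by
    rw [Finset.eventually_all]
    intro u _
    rw [Finset.eventually_all]
    intro v _
    by_cases h : u = v
    · exact Filter.Eventually.of_forall fun t h1 => absurd h h1
    · filter_upwards [pert_ne P h] with t ht _ using ht
  have e2 : ∀ᶠ t in 𝓝[>] (0 : ℝ), ∀ u ∈ (G.1 ++ G.2.1).toFinset, ∀ v ∈ (G.1 ++ G.2.1).toFinset,
      ∀ w ∈ (G.1 ++ G.2.1).toFinset, u ≠ v → u ≠ w → v ≠ w →
        D3 (pert P t u) (pert P t v) (pert P t w) ≠ 0 := by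
    rw [Finset.eventually_all]
    intro u _
    rw [Finset.eventually_all]
    intro v _
    rw [Finset.eventually_all]
    intro w _
    by_cases h : u ≠ v ∧ u ≠ w ∧ v ≠ w
    · filter_upwards [pert_D P h.1 h.2.1 h.2.2] with t ht _ _ _ using ht
    · exact Filter.Eventually.of_forall fun t h1 h2 h3 => absurd ⟨h1, h2, h3⟩ h
  have hc : ∀ u v, Continuous fun t => sq (pert P t u) (pert P t v) := by
    intro u v
    unfold sq pert
    fun_prop
  have h0 : ∀ v, pert P 0 v = P v := by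
    intro v
    simp [pert]
  have e3 : ∀ᶠ t in 𝓝[>] (0 : ℝ), ∀ u ∈ G.1.toFinset, ∀ v ∈ G.2.1.toFinset,
      ((u, v) ∈ G.2.2 → sq (pert P t u) (pert P t v) < 1) ∧
      ((u, v) ∉ G.2.2 → 1 < sq (pert P t u) (pert P t v)) := by
    rw [Finset.eventually_all]
    intro u hu
    rw [Finset.eventually_all]
    intro v hv
    have := hP u (List.mem_toFinset.1 hu) v (List.mem_toFinset.1 hv)
    by_cases h : (u, v) ∈ G.2.2
    · have h1 : sq (pert P 0 u) (pert P 0 v) < 1 := by rw [h0, h0]; exact this.1 h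
      have h2 : ∀ᶠ t in 𝓝[>] (0 : ℝ), sq (pert P t u) (pert P t v) < 1 :=
        ((hc u v).continuousAt.eventually (gt_mem_nhds h1)).filter_mono nhdsWithin_le_nhds
      filter_upwards [h2] with t ht using ⟨fun _ => ht, fun h3 => absurd h h3⟩
    · have h1 : 1 < sq (pert P 0 u) (pert P 0 v) := by rw [h0, h0]; exact this.2 h
      have h2 : ∀ᶠ t in 𝓝[>] (0 : ℝ), 1 < sq (pert P t u) (pert P t v) :=
        ((hc u v).continuousAt.eventually (lt_mem_nhds h1)).filter_mono nhdsWithin_le_nhds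
      filter_upwards [h2] with t ht using ⟨fun h3 => absurd h3 h, fun _ => ht⟩
  obtain ⟨t, t1, t2, t3⟩ := (e1.and (e2.and e3)).exists
  refine ⟨pert P t, ?_, ?_, ?_⟩
  · intro u hu v hv huv
    by_contra hne
    exact t1 u (List.mem_toFinset.2 hu) v (List.mem_toFinset.2 hv) hne huv
  · intro u hu v hv w hw hmem
    have huv : u ≠ v := hG.2.2.1 u hu v hv
    have hu' : u ∈ (G.1 ++ G.2.1).toFinset := List.mem_toFinset.2 (List.mem_append_left _ hu)
    have hv' : v ∈ (G.1 ++ G.2.1).toFinset := List.mem_toFinset.2 (List.mem_append_right _ hv)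
    have hw' : w ∈ (G.1 ++ G.2.1).toFinset := List.mem_toFinset.2 hw
    have hne := t1 u hu' v hv' huv
    by_cases h1 : u = w
    · subst h1
      rw [left_mem_openSegment_iff] at hmem
      exact hne hmem
    by_cases h2 : v = w
    · subst h2
      rw [right_mem_openSegment_iff] at hmem
      exact hne hmem
    exact t2 u hu' v hv' w hw' huv h1 h2 (D3_openSegment hmem)
  · intro u hu v hv
    have := t3 u (List.mem_toFinset.2 hu) v (List.mem_toFinset.2 hv)
    rw [len_le_iff]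
    constructor
    · intro h
      exact (this.1 h).le
    · intro h
      by_contra h1
      exact absurd (this.2 h1) (not_lt.2 h)

/-! ### Completeness -/

section Place

variable (M : List (List Bool)) (y : ℕ → ℕ → ℝ) (n₁ n₂ c : ℕ → ℝ)

/-- The positions. -/
noncomputable def pos (ε : ℝ) (v : ℕ) : ℝ × ℝ :=
  if v % 3 = 0 then (if v / 3 < M.length then (ε * y (v / 3) 0, ε * y (v / 3) 1) else (100, 0))
  else if v % 3 = 1 then (if v / 3 < wid M then
    ((1 - ε * c (v / 3)) * n₁ (v / 3), (1 - ε * c (v / 3)) * n₂ (v / 3)) else (-100, 0))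
  else (-(1 + ε * c (v / 3)) * n₁ (v / 3), -(1 + ε * c (v / 3)) * n₂ (v / 3))

variable {M y n₁ n₂ c}

theorem pos_row {i : ℕ} (hi : i < M.length) (ε : ℝ) :
    pos M y n₁ n₂ c ε (3 * i) = (ε * y i 0, ε * y i 1) := by
  have e1 : 3 * i % 3 = 0 := by omega
  have e2 : 3 * i / 3 = i := by omega
  rw [pos, if_pos e1, e2, if_pos hi]

theorem pos_row' (ε : ℝ) : pos M y n₁ n₂ c ε (3 * M.length) = (100, 0) := by
  have e1 : 3 * M.length % 3 = 0 := by omega
  have e2 : 3 * M.length / 3 = M.length := by omega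
  rw [pos, if_pos e1, e2, if_neg (lt_irrefl _)]

theorem pos_col {j : ℕ} (hj : j < wid M) (ε : ℝ) :
    pos M y n₁ n₂ c ε (3 * j + 1) = ((1 - ε * c j) * n₁ j, (1 - ε * c j) * n₂ j) := by
  have e1 : (3 * j + 1) % 3 = 1 := by omega
  have e2 : (3 * j + 1) / 3 = j := by omega
  rw [pos, e1, e2, if_neg (by norm_num), if_pos rfl, if_pos hj]

theorem pos_col' (ε : ℝ) : pos M y n₁ n₂ c ε (3 * wid M + 1) = (-100, 0) := by
  have e1 : (3 * wid M + 1) % 3 = 1 := by omega
  have e2 : (3 * wid M + 1) / 3 = wid M := by omega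
  rw [pos, e1, e2, if_neg (by norm_num), if_pos rfl, if_neg (lt_irrefl _)]

theorem pos_col2 (j : ℕ) (ε : ℝ) :
    pos M y n₁ n₂ c ε (3 * j + 2) = (-(1 + ε * c j) * n₁ j, -(1 + ε * c j) * n₂ j) := by
  have e1 : (3 * j + 2) % 3 = 2 := by omega
  have e2 : (3 * j + 2) / 3 = j := by omega
  rw [pos, e1, e2, if_neg (by norm_num), if_neg (by norm_num)]

theorem continuous_pos (v : ℕ) : Continuous fun ε => pos M y n₁ n₂ c ε v := by
  unfold pos
  split_ifs <;> fun_prop

/-- A point `1 - 2 ε T + ε² R` is on the right side of `1`. -/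
theorem ev_quad (T R : ℝ) (hT : 0 < T) :
    (∀ᶠ ε in 𝓝[>] (0 : ℝ), 1 - 2 * ε * T + ε ^ 2 * R < 1) ∧
    ∀ᶠ ε in 𝓝[>] (0 : ℝ), 1 < 1 + 2 * ε * T + ε ^ 2 * R := by
  have h1 : ∀ᶠ ε in 𝓝[>] (0 : ℝ), ε * |R| < 2 * T := by
    have hc : Continuous fun ε : ℝ => ε * |R| := by fun_prop
    have h0 : (0 : ℝ) * |R| < 2 * T := by simpa using hT
    exact (hc.continuousAt.eventually (gt_mem_nhds h0)).filter_mono nhdsWithin_le_nhds
  constructor
  · filter_upwards [h1, self_mem_nhdsWithin] with ε h2 h3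
    have h3 : 0 < ε := h3
    have h4 : ε * R ≤ ε * |R| := mul_le_mul_of_nonneg_left (le_abs_self R) h3.le
    nlinarith
  · filter_upwards [h1, self_mem_nhdsWithin] with ε h2 h3
    have h3 : 0 < ε := h3
    have h4 : ε * (-R) ≤ ε * |R| := mul_le_mul_of_nonneg_left (neg_le_abs R) h3.le
    nlinarith

theorem far_of {u v : ℕ} (h : 1 < sq (pos M y n₁ n₂ c 0 u) (pos M y n₁ n₂ c 0 v)) :
    ∀ᶠ ε in 𝓝[>] (0 : ℝ), 1 < sq (pos M y n₁ n₂ c ε u) (pos M y n₁ n₂ c ε v) := by
  have hc : Continuous fun ε => sq (pos M y n₁ n₂ c ε u) (pos M y n₁ n₂ c ε v) := by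
    unfold sq
    have h1 := continuous_pos (M := M) (y := y) (n₁ := n₁) (n₂ := n₂) (c := c) u
    have h2 := continuous_pos (M := M) (y := y) (n₁ := n₁) (n₂ := n₂) (c := c) v
    exact (((continuous_fst.comp h1).sub (continuous_fst.comp h2)).pow 2).add
      (((continuous_snd.comp h1).sub (continuous_snd.comp h2)).pow 2)
  exact (hc.continuousAt.eventually (lt_mem_nhds h)).filter_mono nhdsWithin_le_nhds

theorem pos_ev (hn : ∀ j, n₁ j ^ 2 + n₂ j ^ 2 = 1)
    (hs : ∀ i < M.length, ∀ j < wid M,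
      0 < sgn (ent M i j) * (c j + (y i 0 * n₁ j + y i 1 * n₂ j)))
    {u v : ℕ} (hu : u ∈ ptA M) (hv : v ∈ ptB M) : ∀ᶠ ε in 𝓝[>] (0 : ℝ),
      ((u, v) ∈ ptS M → sq (pos M y n₁ n₂ c ε u) (pos M y n₁ n₂ c ε v) < 1) ∧
      ((u, v) ∉ ptS M → 1 < sq (pos M y n₁ n₂ c ε u) (pos M y n₁ n₂ c ε v)) := by
  obtain ⟨i, hi, rfl⟩ := mem_ptA.1 hu
  have hn1 : ∀ j, n₁ j ≤ 1 ∧ -1 ≤ n₁ j := fun j => by
    constructor <;> nlinarith [hn j, sq_nonneg (n₂ j), sq_nonneg (n₁ j - 1),
      sq_nonneg (n₁ j + 1)]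
  have out : ∀ v', (3 * i, v') ∉ ptS M →
      1 < sq (pos M y n₁ n₂ c 0 (3 * i)) (pos M y n₁ n₂ c 0 v') →
      ∀ᶠ ε in 𝓝[>] (0 : ℝ),
      ((3 * i, v') ∈ ptS M → sq (pos M y n₁ n₂ c ε (3 * i)) (pos M y n₁ n₂ c ε v') < 1) ∧
      ((3 * i, v') ∉ ptS M → 1 < sq (pos M y n₁ n₂ c ε (3 * i)) (pos M y n₁ n₂ c ε v')) := by
    intro v' h1 h2
    filter_upwards [far_of h2] with ε hε using ⟨fun h3 => absurd h3 h1, fun _ => hε⟩
  rcases hi.lt_or_eq with hi | rfl
  · rcases mem_ptB.1 hv with rfl | ⟨j, hj, hv'⟩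
    · apply out
      · rw [mem_ptS]
        rintro ⟨i', _, j', hj', _, e⟩
        split_ifs at e <;> omega
      · rw [pos_row hi, pos_col']
        unfold sq
        norm_num
    · have hT := hs i hi j hj
      have hsq1 : ∀ ε, sq (pos M y n₁ n₂ c ε (3 * i)) (pos M y n₁ n₂ c ε (3 * j + 1)) =
          1 - 2 * ε * (c j + (y i 0 * n₁ j + y i 1 * n₂ j)) + ε ^ 2 * (y i 0 ^ 2 + y i 1 ^ 2 +
            2 * c j * (y i 0 * n₁ j + y i 1 * n₂ j) + c j ^ 2) := by
        intro ε
        rw [pos_row hi, pos_col hj]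
        unfold sq
        have := hn j
        linear_combination (1 - ε * c j) ^ 2 * this
      have hsq2 : ∀ ε, sq (pos M y n₁ n₂ c ε (3 * i)) (pos M y n₁ n₂ c ε (3 * j + 2)) =
          1 + 2 * ε * (c j + (y i 0 * n₁ j + y i 1 * n₂ j)) + ε ^ 2 * (y i 0 ^ 2 + y i 1 ^ 2 +
            2 * c j * (y i 0 * n₁ j + y i 1 * n₂ j) + c j ^ 2) := by
        intro ε
        rw [pos_row hi, pos_col2]
        unfold sq
        have := hn j
        linear_combination (1 + ε * c j) ^ 2 * this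
      have m1 : (3 * i, 3 * j + 1) ∈ ptS M ↔ ent M i j = true := by
        rw [mem_ptS]
        constructor
        · rintro ⟨i', _, j', _, e1, e2⟩
          split_ifs at e2 with h3
          · have : i = i' := by omega
            have : j = j' := by omega
            subst_vars
            exact h3
          · omega
        · intro h3
          exact ⟨i, hi, j, hj, rfl, by rw [if_pos h3]⟩
      have m2 : (3 * i, 3 * j + 2) ∈ ptS M ↔ ¬ ent M i j = true := by
        rw [mem_ptS]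
        constructor
        · rintro ⟨i', _, j', _, e1, e2⟩
          split_ifs at e2 with h3
          · omega
          · have : i = i' := by omega
            have : j = j' := by omega
            subst_vars
            exact h3
        · intro h3
          exact ⟨i, hi, j, hj, rfl, by rw [if_neg h3]⟩
      rcases hv' with rfl | rfl
      · simp only [m1, hsq1]
        cases hb : ent M i j
        · rw [hb, sgn_false] at hT
          filter_upwards [(ev_quad (-(c j + (y i 0 * n₁ j + y i 1 * n₂ j)))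
            (y i 0 ^ 2 + y i 1 ^ 2 + 2 * c j * (y i 0 * n₁ j + y i 1 * n₂ j) + c j ^ 2)
            (by linarith)).2] with ε hε
          refine ⟨fun h => by simp at h, fun _ => ?_⟩
          linarith
        · rw [hb, sgn_true] at hT
          filter_upwards [(ev_quad (c j + (y i 0 * n₁ j + y i 1 * n₂ j))
            (y i 0 ^ 2 + y i 1 ^ 2 + 2 * c j * (y i 0 * n₁ j + y i 1 * n₂ j) + c j ^ 2)
            (by linarith)).1] with ε hε
          exact ⟨fun _ => hε, fun h => absurd rfl h⟩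
      · simp only [m2, hsq2]
        cases hb : ent M i j
        · rw [hb, sgn_false] at hT
          filter_upwards [(ev_quad (-(c j + (y i 0 * n₁ j + y i 1 * n₂ j)))
            (y i 0 ^ 2 + y i 1 ^ 2 + 2 * c j * (y i 0 * n₁ j + y i 1 * n₂ j) + c j ^ 2)
            (by linarith)).1] with ε hε
          refine ⟨fun _ => by linarith, fun h => by simp at h⟩
        · rw [hb, sgn_true] at hT
          filter_upwards [(ev_quad (c j + (y i 0 * n₁ j + y i 1 * n₂ j))
            (y i 0 ^ 2 + y i 1 ^ 2 + 2 * c j * (y i 0 * n₁ j + y i 1 * n₂ j) + c j ^ 2)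
            (by linarith)).2] with ε hε
          exact ⟨fun h => absurd rfl h, fun _ => hε⟩
  · apply out
    · rw [mem_ptS]
      rintro ⟨i', hi', j', hj', e, _⟩
      omega
    · rw [pos_row']
      rcases mem_ptB.1 hv with rfl | ⟨j, hj, rfl | rfl⟩
      · rw [pos_col']
        unfold sq
        norm_num
      · rw [pos_col hj]
        unfold sq
        have := hn1 j
        simp only [zero_mul, sub_zero, one_mul]
        nlinarith [sq_nonneg (n₂ j)]
      · rw [pos_col2]
        unfold sq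
        have := hn1 j
        simp only [zero_mul, add_zero]
        nlinarith [sq_nonneg (n₂ j)]

end Place

theorem red_of_SRN {m : ℕ} {M : List (List Bool)} (hM : Rect m M) (h : SRN 2 M) :
    Realizable (red M) := by
  obtain ⟨y, η, c, hη, hyc⟩ := h
  set N : ℕ → ℝ := fun j => Real.sqrt (η j 0 ^ 2 + η j 1 ^ 2) with hN
  have hN0 : ∀ j, 0 < N j := fun j => Real.sqrt_pos.2 (by have := hη j; positivity)
  have hN2 : ∀ j, N j ^ 2 = η j 0 ^ 2 + η j 1 ^ 2 := fun j => Real.sq_sqrt (by positivity)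
  have hn : ∀ j, (η j 0 / N j) ^ 2 + (η j 1 / N j) ^ 2 = 1 := by
    intro j
    have := hN0 j
    rw [div_pow, div_pow, ← add_div, ← hN2 j, div_self (by positivity)]
  have hs : ∀ i < M.length, ∀ j < wid M, 0 < sgn (ent M i j) *
      (c j / N j + (y i 0 * (η j 0 / N j) + y i 1 * (η j 1 / N j))) := by
    intro i hi j hj
    have hj' : j < M[i].length := by rw [wid_eq hM hi]; exact hj
    have := hyc i hi j hj'
    rw [← ent_eq hi hj', Finset.sum_range_succ, Finset.sum_range_one] at this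
    have e : sgn (ent M i j) * (c j / N j + (y i 0 * (η j 0 / N j) + y i 1 * (η j 1 / N j))) =
        (sgn (ent M i j) * (c j + (y i 0 * η j 0 + y i 1 * η j 1))) / N j := by
      have := (hN0 j).ne'
      field_simp
    rw [e]
    exact div_pos this (hN0 j)
  have ev : ∀ᶠ ε in 𝓝[>] (0 : ℝ), ∀ u ∈ (ptA M).toFinset, ∀ v ∈ (ptB M).toFinset,
      ((u, v) ∈ ptS M → sq (pos M y (fun j => η j 0 / N j) (fun j => η j 1 / N j)
        (fun j => c j / N j) ε u) (pos M y (fun j => η j 0 / N j) (fun j => η j 1 / N j)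
        (fun j => c j / N j) ε v) < 1) ∧
      ((u, v) ∉ ptS M → 1 < sq (pos M y (fun j => η j 0 / N j) (fun j => η j 1 / N j)
        (fun j => c j / N j) ε u) (pos M y (fun j => η j 0 / N j) (fun j => η j 1 / N j)
        (fun j => c j / N j) ε v)) := by
    rw [Finset.eventually_all]
    intro u hu
    rw [Finset.eventually_all]
    intro v hv
    exact pos_ev (n₁ := fun j => η j 0 / N j) (n₂ := fun j => η j 1 / N j)
      (c := fun j => c j / N j) hn hs (List.mem_toFinset.1 hu) (List.mem_toFinset.1 hv)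
  obtain ⟨ε, hε⟩ := ev.exists
  exact realizable_of_strict (isInst_red M) _ fun u hu v hv =>
    hε u (List.mem_toFinset.2 hu) v (List.mem_toFinset.2 hv)

/-! ### Polynomial time -/

theorem poly_three {α : Type} [TEnc α] {n : α → ℕ} (hn : Poly n) (t : ℕ) :
    Poly (fun a => 3 * n a + t) := Poly.add (Poly.mul (Poly.const 3) hn) (Poly.const t)

theorem poly_red : Poly red := by
  have hw : UPoly (fun M : List (List Bool) => wid M) := upoly_wid Poly.id
  refine Poly.pair ?_ (Poly.pair ?_ ?_)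
  · unfold ptA
    exact Poly.map (F := fun _ i => 3 * i) (UPoly.add (UPoly.length Poly.id) (UPoly.const 1)).range
      (Poly.mul (Poly.const 3) (Poly.snd Poly.id))
  · unfold ptB
    refine Poly.cons (poly_three hw.toPoly 1) (Poly.flatMap
      (F := fun _ j => [3 * j + 1, 3 * j + 2]) hw.range ?_)
    exact Poly.cons (poly_three (Poly.snd Poly.id) 1) (Poly.cons (poly_three (Poly.snd Poly.id) 2)
      (Poly.const []))
  · unfold ptS
    refine Poly.flatMap (F := fun (M : List (List Bool)) (i : ℕ) => (List.range (wid M)).map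
      fun j => (3 * i, if ent M i j = true then 3 * j + 1 else 3 * j + 2))
      (Poly.range_length Poly.id) ?_
    refine Poly.map (F := fun (p : List (List Bool) × ℕ) (j : ℕ) =>
      (3 * p.2, if ent p.1 p.2 j = true then 3 * j + 1 else 3 * j + 2))
      (upoly_wid (Poly.fst Poly.id)).range ?_
    have hi : Poly (fun q : (List (List Bool) × ℕ) × ℕ => q.1.2) := Poly.snd (Poly.fst Poly.id)
    have hj : Poly (fun q : (List (List Bool) × ℕ) × ℕ => q.2) := Poly.snd Poly.id
    refine Poly.pair (Poly.mul (Poly.const 3) hi) (Poly.ite (Poly.decide_bool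
      (poly_ent (Poly.fst (Poly.fst Poly.id)) hi hj)) (poly_three hj 1) (poly_three hj 2))

/-- Long/short edge realizability of complete bipartite graphs is hard for `∃ℝ`. -/
theorem lse_hard {patOf : List Con → Pat} (h : IsPatOf patOf) :
    ERHard (lang fun G : Inst => IsInst G ∧ Realizable G) := by
  refine ERHard.of_sys (f := fun S => red (matOf patOf 0 S))
    (poly_red.comp (h.poly_matOf 0)) fun S => ?_
  obtain ⟨m, hm⟩ := rect_matOf patOf 0 S
  constructor
  · intro hS
    exact ⟨isInst_red _, red_of_SRN hm (h.srn (k := 0) hS)⟩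
  · rintro ⟨-, hS⟩
    exact h.sat (k := 0) (SR_of_red hm hS)

end Pool.Agent.NPC.ER.LSE
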