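import Pool.Agent.H606R2.LSE.Defs
import Pool.Agent.H606R2.GPP.Member

/-!
# Membership in `∃ℝ`
-/

namespace Pool.Agent.NPC.ER.LSE

open Pool.Agent.NPC
open Pool.Agent.NPC.ER.GPP (vx subT neF holds_neF avF holds_avF poly_subT poly_neF poly_avF
  poly_two)
open Pool.Agent.NPC.H670R2 (ff tt conj holds_ff holds_tt holds_conj poly_conj poly_tvar poly_tadd
  poly_tmul poly_tneg poly_eq poly_lt poly_not poly_and poly_or poly_le not_etr_ff)

/-- The square of the length. -/
def sqT (u v : ℕ) : Tm :=
  Tm.add (Tm.mul (subT (2 * u) (2 * v)) (subT (2 * u) (2 * v)))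
    (Tm.mul (subT (2 * u + 1) (2 * v + 1)) (subT (2 * u + 1) (2 * v + 1)))

/-- The length is at most `1`. -/
def leF (u v : ℕ) : Fm := Fm.le (sqT u v) Tm.one

theorem holds_leF (x : ℕ → ℝ) (u v : ℕ) : (leF u v).Holds x ↔ len (vx x u) (vx x v) ≤ 1 := by
  simp only [leF, Fm.Holds, sqT, subT, Tm.eval, len, vx]
  rw [Real.sqrt_le_iff]
  constructor
  · intro h
    exact ⟨zero_le_one, by nlinarith⟩
  · rintro ⟨-, h⟩
    nlinarith

/-- The list of conditions. -/
def conds (G : Inst) : List Fm :=
  ((G.1 ++ G.2.1).flatMap fun u => (G.1 ++ G.2.1).map fun v => if u = v then tt else neF u v) ++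
  ((G.1.flatMap fun u => G.2.1.flatMap fun v => (G.1 ++ G.2.1).map fun w =>
    if w = u ∨ w = v then tt else avF u v w) ++
  (G.1.flatMap fun u => G.2.1.map fun v =>
    if (u, v) ∈ G.2.2 then leF u v else Fm.not (leF u v)))

theorem conds_iff {G : Inst} (hG : IsInst G) (x : ℕ → ℝ) :
    (∀ φ ∈ conds G, φ.Holds x) ↔ Realizes G (vx x) := by
  obtain ⟨-, -, hdis, -⟩ := hG
  unfold conds
  constructor
  · intro h
    have hinj : ∀ u ∈ G.1 ++ G.2.1, ∀ v ∈ G.1 ++ G.2.1, vx x u = vx x v → u = v := by
      intro u hu v hv huv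
      by_contra hne
      have := h _ (List.mem_append.2 (Or.inl
        (List.mem_flatMap.2 ⟨u, hu, List.mem_map.2 ⟨v, hv, rfl⟩⟩)))
      rw [if_neg hne, holds_neF] at this
      exact this huv
    refine ⟨hinj, ?_, ?_⟩
    · intro u hu v hv w hw
      have huv : vx x u ≠ vx x v := fun h1 => hdis u hu v hv
        (hinj u (List.mem_append_left _ hu) v (List.mem_append_right _ hv) h1)
      by_cases h1 : w = u ∨ w = v
      · rcases h1 with rfl | rfl
        · rw [left_mem_openSegment_iff]; exact huv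
        · rw [right_mem_openSegment_iff]; exact huv
      · have := h _ (List.mem_append.2 (Or.inr (List.mem_append.2 (Or.inl
          (List.mem_flatMap.2 ⟨u, hu, List.mem_flatMap.2 ⟨v, hv,
            List.mem_map.2 ⟨w, hw, rfl⟩⟩⟩)))))
        rw [if_neg h1, holds_avF] at this
        exact fun h2 => this (openSegment_subset_segment _ _ _ h2)
    · intro u hu v hv
      have := h _ (List.mem_append.2 (Or.inr (List.mem_append.2 (Or.inr
        (List.mem_flatMap.2 ⟨u, hu, List.mem_map.2 ⟨v, hv, rfl⟩⟩)))))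
      split_ifs at this with h1
      · rw [holds_leF] at this
        exact ⟨fun _ => this, fun _ => h1⟩
      · simp only [Fm.Holds, holds_leF] at this
        exact ⟨fun h2 => absurd h2 h1, fun h2 => absurd h2 this⟩
  · rintro ⟨hinj, hav, hsh⟩ φ hφ
    rw [List.mem_append, List.mem_append, List.mem_flatMap, List.mem_flatMap,
      List.mem_flatMap] at hφ
    rcases hφ with ⟨u, hu, hφ⟩ | ⟨u, hu, hφ⟩ | ⟨u, hu, hφ⟩
    · obtain ⟨v, hv, rfl⟩ := List.mem_map.1 hφ
      split_ifs with h
      · exact holds_tt x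
      · rw [holds_neF]
        exact fun h3 => h (hinj u hu v hv h3)
    · obtain ⟨v, hv, hφ⟩ := List.mem_flatMap.1 hφ
      obtain ⟨w, hw, rfl⟩ := List.mem_map.1 hφ
      split_ifs with h
      · exact holds_tt x
      · push Not at h
        rw [holds_avF]
        intro hmem
        have hw' : ∀ z ∈ G.1 ++ G.2.1, w ≠ z → vx x z ≠ vx x w := fun z hz hne h3 =>
          hne (hinj z hz w hw h3).symm
        exact hav u hu v hv w hw (mem_openSegment_of_ne_left_right
          (hw' u (List.mem_append_left _ hu) h.1) (hw' v (List.mem_append_right _ hv) h.2) hmem)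
    · obtain ⟨v, hv, rfl⟩ := List.mem_map.1 hφ
      split_ifs with h
      · rw [holds_leF]
        exact (hsh u hu v hv).1 h
      · simp only [Fm.Holds, holds_leF]
        exact fun h2 => h ((hsh u hu v hv).2 h2)

/-- The test for instances. -/
def instB (G : Inst) : Bool :=
  (!decide (G.1 = []) && !decide (G.2.1 = [])) &&
    ((G.1.all fun u => G.2.1.all fun v => !decide (u = v)) &&
      G.2.2.all fun e => decide (e.1 ∈ G.1) && decide (e.2 ∈ G.2.1))

theorem instB_iff (G : Inst) : instB G = true ↔ IsInst G := by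
  unfold instB IsInst
  simp only [List.all_eq_true, decide_eq_true_eq, Bool.and_eq_true, Bool.not_eq_true',
    decide_eq_false_iff_not, and_assoc, ne_eq]

/-- The existential sentence. -/
def form (G : Inst) : Fm := if instB G = true then conj (conds G) else ff

theorem form_correct (G : Inst) : (IsInst G ∧ Realizable G) ↔ ETR (form G) := by
  unfold form
  rw [← instB_iff]
  split_ifs with h
  · rw [instB_iff] at h
    unfold ETR Realizable
    simp only [holds_conj, conds_iff h]
    constructor
    · rintro ⟨-, p, hp⟩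
      refine ⟨fun n => if n % 2 = 0 then (p (n / 2)).1 else (p (n / 2)).2, ?_⟩
      have hv : vx (fun n => if n % 2 = 0 then (p (n / 2)).1 else (p (n / 2)).2) = p := by
        funext v
        unfold vx
        have e1 : 2 * v % 2 = 0 := by omega
        have e2 : (2 * v + 1) % 2 = 1 := by omega
        have e3 : 2 * v / 2 = v := by omega
        have e4 : (2 * v + 1) / 2 = v := by omega
        simp only [e1, e2, e3, e4]
        rfl
      rw [hv]
      exact hp
    · rintro ⟨x, hx⟩
      exact ⟨(instB_iff G).2 h, vx x, hx⟩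
  · constructor
    · rintro ⟨h1, -⟩
      exact absurd h1 h
    · intro h1
      exact absurd h1 not_etr_ff

/-! ### Polynomial time -/

section

variable {α : Type} [TEnc α]

theorem poly_leF {u v : α → ℕ} (hu : Poly u) (hv : Poly v) :
    Poly (fun a => leF (u a) (v a)) := by
  have a1 := poly_subT (poly_two hu) (poly_two hv)
  have a2 := poly_subT (Poly.succ (poly_two hu)) (Poly.succ (poly_two hv))
  exact poly_le (poly_tadd (poly_tmul a1 a1) (poly_tmul a2 a2)) (Poly.const _)

theorem poly_conds : Poly conds := by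
  have hA : Poly (fun G : Inst => G.1) := Poly.fst Poly.id
  have hB : Poly (fun G : Inst => G.2.1) := Poly.fst (Poly.snd Poly.id)
  have hS : Poly (fun G : Inst => G.2.2) := Poly.snd (Poly.snd Poly.id)
  have hAB : Poly (fun G : Inst => G.1 ++ G.2.1) := Poly.append hA hB
  refine Poly.append ?_ (Poly.append ?_ ?_)
  · refine Poly.flatMap (F := fun (G : Inst) (u : ℕ) => (G.1 ++ G.2.1).map fun v =>
      if u = v then tt else neF u v) hAB ?_
    refine Poly.map (F := fun (p : Inst × ℕ) (v : ℕ) => if p.2 = v then tt else neF p.2 v)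
      (hAB.comp (Poly.fst Poly.id)) ?_
    exact Poly.ite (Poly.decide_eq (Poly.snd (Poly.fst Poly.id)) (Poly.snd Poly.id))
      (Poly.const _) (poly_neF (Poly.snd (Poly.fst Poly.id)) (Poly.snd Poly.id))
  · refine Poly.flatMap (F := fun (G : Inst) (u : ℕ) => G.2.1.flatMap fun v =>
      (G.1 ++ G.2.1).map fun w => if w = u ∨ w = v then tt else avF u v w) hA ?_
    refine Poly.flatMap (F := fun (p : Inst × ℕ) (v : ℕ) =>
      (p.1.1 ++ p.1.2.1).map fun w => if w = p.2 ∨ w = v then tt else avF p.2 v w)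
      (hB.comp (Poly.fst Poly.id)) ?_
    refine Poly.map (F := fun (q : (Inst × ℕ) × ℕ) (w : ℕ) =>
      if w = q.1.2 ∨ w = q.2 then tt else avF q.1.2 q.2 w)
      (hAB.comp (Poly.fst (Poly.fst Poly.id))) ?_
    have e1 : Poly (fun q : ((Inst × ℕ) × ℕ) × ℕ => q.1.1.2) :=
      Poly.snd (Poly.fst (Poly.fst Poly.id))
    have e2 : Poly (fun q : ((Inst × ℕ) × ℕ) × ℕ => q.1.2) :=
      Poly.snd (Poly.fst Poly.id)
    have w : Poly (fun q : ((Inst × ℕ) × ℕ) × ℕ => q.2) := Poly.snd Poly.id
    exact Poly.ite (Poly.decide_or (Poly.decide_eq w e1) (Poly.decide_eq w e2))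
      (Poly.const _) (poly_avF e1 e2 w)
  · refine Poly.flatMap (F := fun (G : Inst) (u : ℕ) => G.2.1.map fun v =>
      if (u, v) ∈ G.2.2 then leF u v else Fm.not (leF u v)) hA ?_
    refine Poly.map (F := fun (p : Inst × ℕ) (v : ℕ) =>
      if (p.2, v) ∈ p.1.2.2 then leF p.2 v else Fm.not (leF p.2 v))
      (hB.comp (Poly.fst Poly.id)) ?_
    have e1 : Poly (fun q : (Inst × ℕ) × ℕ => q.1.2) := Poly.snd (Poly.fst Poly.id)
    have e2 : Poly (fun q : (Inst × ℕ) × ℕ => q.2) := Poly.snd Poly.id
    have e3 : Poly (fun q : (Inst × ℕ) × ℕ => q.1.1.2.2) := hS.comp (Poly.fst (Poly.fst Poly.id))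
    exact Poly.ite ((Poly.decide_mem (Poly.pair e1 e2) e3).congr
      fun _ => decide_eq_decide.2 Iff.rfl) (poly_leF e1 e2) (poly_not (poly_leF e1 e2))

theorem poly_instB : Poly instB := by
  have hA : Poly (fun G : Inst => G.1) := Poly.fst Poly.id
  have hB : Poly (fun G : Inst => G.2.1) := Poly.fst (Poly.snd Poly.id)
  have hS : Poly (fun G : Inst => G.2.2) := Poly.snd (Poly.snd Poly.id)
  refine Poly.and (Poly.and (Poly.not (Poly.decide_eq hA (Poly.const [])))
    (Poly.not (Poly.decide_eq hB (Poly.const [])))) (Poly.and ?_ ?_)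
  · refine Poly.all (p := fun (G : Inst) (u : ℕ) => G.2.1.all fun v => !decide (u = v)) hA ?_
    refine Poly.all (p := fun (q : Inst × ℕ) (v : ℕ) => !decide (q.2 = v))
      (hB.comp (Poly.fst Poly.id)) ?_
    exact Poly.not (Poly.decide_eq (Poly.snd (Poly.fst Poly.id)) (Poly.snd Poly.id))
  · refine Poly.all (p := fun (G : Inst) (e : ℕ × ℕ) => decide (e.1 ∈ G.1) &&
      decide (e.2 ∈ G.2.1)) hS ?_
    exact Poly.and (Poly.decide_mem (Poly.fst (Poly.snd Poly.id)) (hA.comp (Poly.fst Poly.id)))
      (Poly.decide_mem (Poly.snd (Poly.snd Poly.id)) (hB.comp (Poly.fst Poly.id)))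

theorem poly_form : Poly form := by
  unfold form
  exact Poly.ite (Poly.decide_bool poly_instB) (poly_conj poly_conds) (Poly.const _)

end

/-- Long/short edge realizability of complete bipartite graphs belongs to `∃ℝ`. -/
theorem lse_mem : InER (lang fun G : Inst => IsInst G ∧ Realizable G) :=
  InER.of_poly poly_form form_correct

end Pool.Agent.NPC.ER.LSE
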